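import Mathlib
import Pool.Agent.TH142.PN.Grp

/-!
# Invariant characters vanish on the central series (job 1615, helper111)
-/

set_option autoImplicit false

namespace Pool.Agent.TH111.PN

open Finset Polynomial Pool.Agent.TH91.RF Pool.Agent.TH142.PN

section

variable {ι : Type} {N : ℕ} (c : Cx ι N)

theorem zs_anti {k l : ℕ} (h : k ≤ l) : zs c.S c.p l ≤ zs c.S c.p k := by
  induction l, h using Nat.le_induction with
  | base => exact le_rfl
  | succ l _ ih => exact (zs_succ_le c.S c.p l).trans ih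

theorem zs_le_z (k : ℕ) : zs c.S c.p k ≤ c.z := zs_anti c (Nat.zero_le k)

theorem zs_eq_bot {k : ℕ} (h : c.Θ * N ≤ k) {x : PM ι N} (hx : x ∈ zs c.S c.p k) : x = 0 := by
  have h1 := zs_anti c h hx
  rw [c.zs_bot] at h1
  exact (Submodule.mem_bot ℝ).1 h1

/-- translation by an element of an ideal, in the group -/
theorem ex_coset {B : Submodule ℝ (PM ι N)} (hB : c.Down B B) (hBz : B ≤ c.z) {x y : PM ι N}
    (hx : x ∈ c.z) (hy : y ∈ c.z) (h : y - x ∈ B) :
    ∃ j, ∃ hj : j ∈ B, c.ex y hy = c.ex x hx * c.ex j (hBz hj) := by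
  obtain ⟨j, hj, h1⟩ := c.lat.exp_coset (hB.idl hBz) hx hy h
  exact ⟨j, hj, c.ext_val h1⟩

/-- products in the group -/
theorem ex_mul {A B : Submodule ℝ (PM ι N)} (h : c.Down A B) (hA : A ≤ c.z) {x y : PM ι N}
    (hx : x ∈ c.z) (hy : y ∈ A) : ∃ j, ∃ hj : j ∈ B, c.ex x hx * c.ex y (hA hy) =
      c.ex (x + y + j) (c.z.add_mem (c.z.add_mem hx (hA hy)) (hA (h.1 hj))) := by
  obtain ⟨j, hj, h1⟩ := Cx.mul_add h hA hx hy
  exact ⟨j, hj, c.ext_val h1⟩

/-- commutators in the group -/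
theorem ex_comm {A B C : Submodule ℝ (PM ι N)} (h : c.Down A B) (h' : c.Down B C) (hA : A ≤ c.z)
    {y z : PM ι N} (hy : y ∈ c.z) (hz : z ∈ A) :
    ∃ j, ∃ hj : j ∈ C, c.ex y hy * c.ex z (hA hz) * (c.ex y hy)⁻¹ * (c.ex z (hA hz))⁻¹ =
      c.ex (y * z - z * y + j) (c.z.add_mem (c.br hy (hA hz)) (hA (h.1 (h'.1 hj)))) := by
  obtain ⟨j, hj, h1⟩ := Cx.comm_add h h' hA hy hz
  exact ⟨j, hj, c.ext_val h1⟩

/-- translations in the group -/
theorem ex_sh {A B C : Submodule ℝ (PM ι N)} (h : c.Down A B) (h' : c.Down B C) (hA : A ≤ c.z)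
    (K : ℤ) {z : PM ι N} (hz : z ∈ A) :
    ∃ j, ∃ hj : j ∈ C, c.shG K (c.ex z (hA hz)) * (c.ex z (hA hz))⁻¹ =
      c.ex ((K : ℝ) • dd ι N z + j) (c.z.add_mem (c.z.smul_mem _ (dd_zz c.S c.p (hA hz)))
        (hA (h.1 (h'.1 hj)))) := by
  have hB : B ≤ c.z := h.1.trans hA
  obtain ⟨j, hj, h1⟩ := Cx.sh_add h h' hA (K : ℝ) hz
  have hb : (K : ℝ) • dd ι N z + j ∈ B := B.add_mem (B.smul_mem _ (h.2 z hz).2.1) (h'.1 hj)
  obtain ⟨j', hj', h2⟩ := Cx.add_neg h' hB (hA hz) hb
  refine ⟨j + j', C.add_mem hj hj', c.ext_val ?_⟩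
  change sh ι N (K : ℝ) (IsNilpotent.exp z) * IsNilpotent.exp (-z) =
    IsNilpotent.exp ((K : ℝ) • dd ι N z + (j + j'))
  rw [sh_exp _ (c.nil (hA hz)), h1, add_assoc z, h2, add_assoc]

theorem sG_ex {z : PM ι N} (hz : z ∈ c.z) : c.sG (c.ex z hz) =
    c.ex (IsNilpotent.exp (cst ι c.S.D) * z * IsNilpotent.exp (-cst ι c.S.D)) (c.conj_z hz) := by
  apply c.ext_val
  rw [Cx.ex_val, c.exp_conj_val hz]
  rfl

/-- conjugations in the group -/
theorem ex_conj {A B C : Submodule ℝ (PM ι N)} (h : c.Down A B) (h' : c.Down B C) (hA : A ≤ c.z)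
    {z : PM ι N} (hz : z ∈ A) :
    ∃ j, ∃ hj : j ∈ C, c.sG (c.ex z (hA hz)) * (c.ex z (hA hz))⁻¹ =
      c.ex ((cst ι c.S.D * z - z * cst ι c.S.D) + j) (c.z.add_mem (D_zz c.S c.p (hA hz))
        (hA (h.1 (h'.1 hj)))) := by
  have hB : B ≤ c.z := h.1.trans hA
  obtain ⟨j, hj, h1⟩ := Cx.conj_add h h' hA 1 hz
  rw [one_smul, one_smul] at h1
  have hb : (cst ι c.S.D * z - z * cst ι c.S.D) + j ∈ B := B.add_mem (h.2 z hz).2.2 (h'.1 hj)
  obtain ⟨j', hj', h2⟩ := Cx.add_neg h' hB (hA hz) hb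
  refine ⟨j + j', C.add_mem hj hj', c.ext_val ?_⟩
  rw [sG_ex]
  change IsNilpotent.exp (IsNilpotent.exp (cst ι c.S.D) * z * IsNilpotent.exp (-cst ι c.S.D)) *
    IsNilpotent.exp (-z) = IsNilpotent.exp ((cst ι c.S.D * z - z * cst ι c.S.D) + (j + j'))
  rw [h1, add_assoc z, h2, add_assoc]

end

/-- invariant characters of the group are trivial on the first step of the central series, and
additive -/
theorem char_zs {ι : Type} {N : ℕ} (c : Cx ι N) (χ : c.G →* Circle) {K : ℤ} (hK : K ≠ 0)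
    (hsh : ∀ g, χ (c.shG K g) = χ g) (hs : ∀ g, χ (c.sG g) = χ g) :
    (∀ (y : PM ι N) (hy : y ∈ c.z), y ∈ zs c.S c.p 1 → χ (c.ex y hy) = 1) ∧
    ∀ (x y : PM ι N) (hx : x ∈ c.z) (hy : y ∈ c.z),
      χ (c.ex (x + y) (c.z.add_mem hx hy)) = χ (c.ex x hx) * χ (c.ex y hy) := by
  have hK' : (K : ℝ) ≠ 0 := by exact_mod_cast hK
  -- consequences of triviality on an ideal
  have hcos : ∀ l, (∀ (y : PM ι N) (hy : y ∈ c.z), y ∈ zs c.S c.p l → χ (c.ex y hy) = 1) →
      ∀ (x y : PM ι N) (hx : x ∈ c.z) (hy : y ∈ c.z), y - x ∈ zs c.S c.p l →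
        χ (c.ex y hy) = χ (c.ex x hx) := by
    intro l hl x y hx hy h
    obtain ⟨j, hj, h1⟩ := ex_coset c (c.zs_down l).self (zs_le_z c l) hx hy h
    rw [h1, map_mul, hl j _ hj, mul_one]
  have hadd : ∀ l, (∀ (y : PM ι N) (hy : y ∈ c.z), y ∈ zs c.S c.p (l + 1) → χ (c.ex y hy) = 1) →
      ∀ (x y : PM ι N) (hx : x ∈ c.z) (hy : y ∈ c.z), y ∈ zs c.S c.p l →
        χ (c.ex (x + y) (c.z.add_mem hx hy)) = χ (c.ex x hx) * χ (c.ex y hy) := by
    intro l hl x y hx hy h
    obtain ⟨j, hj, h1⟩ := ex_mul c (c.zs_down l) (zs_le_z c l) hx h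
    rw [← map_mul, h1]
    refine (hcos (l + 1) hl _ _ _ _ ?_).symm
    rw [add_sub_cancel_left]
    exact hj
  have key : ∀ m k, c.Θ * N ≤ k + 1 + m → ∀ (y : PM ι N) (hy : y ∈ c.z),
      y ∈ zs c.S c.p (k + 1) → χ (c.ex y hy) = 1 := by
    intro m
    induction m with
    | zero =>
      intro k hk y hy h
      have h0 : y = 0 := zs_eq_bot c hk h
      rw [c.ex_congr hy h0, c.ex_zero, map_one]
    | succ m ih =>
      intro k hk
      have h2 := ih (k + 1) (by omega)
      have hA : zs c.S c.p k ≤ c.z := zs_le_z c k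
      have hB : zs c.S c.p (k + 1) ≤ c.z := zs_le_z c (k + 1)
      have h3 : ∀ w ∈ zs c.S c.p (k + 1), ∀ (t : ℝ) (h : t • w ∈ c.z), χ (c.ex (t • w) h) = 1 := by
        intro w hw
        have hw' : w ∈ Submodule.span ℝ ({w | ∃ y ∈ zz c.S c.p, ∃ z ∈ zs c.S c.p k,
            w = y * z - z * y} ∪ {w | ∃ z ∈ zs c.S c.p k, w = dd ι N z} ∪
            {w | ∃ z ∈ zs c.S c.p k, w = cst ι c.S.D * z - z * cst ι c.S.D}) := hw
        induction hw' using Submodule.span_induction with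
        | mem w hw1 =>
          intro t ht
          rcases hw1 with (⟨y, hy, z, hz, rfl⟩ | ⟨z, hz, rfl⟩) | ⟨z, hz, rfl⟩
          · have hz' : t • z ∈ zs c.S c.p k := Submodule.smul_mem _ t hz
            obtain ⟨j, hj, h4⟩ := ex_comm c (c.zs_down k) (c.zs_down (k + 1)) hA hy hz'
            have h5 := congrArg χ h4
            rw [map_mul, map_mul, map_mul, map_inv, map_inv] at h5
            have h6 : χ (c.ex y hy) * χ (c.ex (t • z) (hA hz')) * (χ (c.ex y hy))⁻¹ *
                (χ (c.ex (t • z) (hA hz')))⁻¹ = 1 := by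
              rw [mul_comm (χ (c.ex y hy)), mul_inv_cancel_right, mul_inv_cancel]
            have h7 : t • (y * z - z * y) = y * t • z - t • z * y := by
              rw [smul_sub, mul_smul_comm, smul_mul_assoc]
            have h8 := hcos (k + 1 + 1) h2 (t • (y * z - z * y)) _ ht
              (c.z.add_mem (c.br hy (hA hz')) (hA ((c.zs_down k).1 ((c.zs_down (k + 1)).1 hj)))) (by
                rw [h7, add_sub_cancel_left]
                exact hj)
            rw [← h8, ← h5, h6]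
          · have hz' : (t / K) • z ∈ zs c.S c.p k := Submodule.smul_mem _ _ hz
            obtain ⟨j, hj, h4⟩ := ex_sh c (c.zs_down k) (c.zs_down (k + 1)) hA K hz'
            have h5 := congrArg χ h4
            rw [map_mul, map_inv, hsh, mul_inv_cancel] at h5
            have h7 : t • dd ι N z = (K : ℝ) • dd ι N ((t / K) • z) := by
              rw [map_smul, smul_smul, mul_div_cancel₀ _ hK']
            have h8 := hcos (k + 1 + 1) h2 (t • dd ι N z) _ ht
              (c.z.add_mem (c.z.smul_mem _ (dd_zz c.S c.p (hA hz')))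
                (hA ((c.zs_down k).1 ((c.zs_down (k + 1)).1 hj)))) (by
                rw [h7, add_sub_cancel_left]
                exact hj)
            rw [← h8, ← h5]
          · have hz' : t • z ∈ zs c.S c.p k := Submodule.smul_mem _ _ hz
            obtain ⟨j, hj, h4⟩ := ex_conj c (c.zs_down k) (c.zs_down (k + 1)) hA hz'
            have h5 := congrArg χ h4
            rw [map_mul, map_inv, hs, mul_inv_cancel] at h5
            have h7 : t • (cst ι c.S.D * z - z * cst ι c.S.D) =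
                cst ι c.S.D * t • z - t • z * cst ι c.S.D := by
              rw [smul_sub, mul_smul_comm, smul_mul_assoc]
            have h8 := hcos (k + 1 + 1) h2 (t • (cst ι c.S.D * z - z * cst ι c.S.D)) _ ht
              (c.z.add_mem (D_zz c.S c.p (hA hz'))
                (hA ((c.zs_down k).1 ((c.zs_down (k + 1)).1 hj)))) (by
                rw [h7, add_sub_cancel_left]
                exact hj)
            rw [← h8, ← h5]
        | zero =>
          intro t ht
          rw [c.ex_congr ht (smul_zero t), c.ex_zero, map_one]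
        | add x y hx hy ihx ihy =>
          intro t ht
          have hx' : t • x ∈ zs c.S c.p (k + 1) := Submodule.smul_mem _ t hx
          have hy' : t • y ∈ zs c.S c.p (k + 1) := Submodule.smul_mem _ t hy
          rw [c.ex_congr ht (smul_add t x y), hadd (k + 1) h2 _ _ (hB hx') (hB hy') hy', ihx hx, ihy hy,
            mul_one]
        | smul a x hx ihx =>
          intro t ht
          rw [c.ex_congr ht (smul_smul t a x), ihx hx]
      intro y hy h
      have := h3 y h 1 (by rwa [one_smul])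
      rwa [c.ex_congr _ (one_smul ℝ y)] at this
  have h1 : ∀ (y : PM ι N) (hy : y ∈ c.z), y ∈ zs c.S c.p 1 → χ (c.ex y hy) = 1 :=
    key (c.Θ * N) 0 (by omega)
  exact ⟨h1, fun x y hx hy => hadd 0 h1 x y hx hy hy⟩

end Pool.Agent.TH111.PN
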