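import Mathlib
import Pool.Agent.TH142.PN.Grp
import Pool.Agent.TH111.PN.C4

/-!
# The refined central series of the group of polynomial maps (job 1613, helper111)
-/

set_option autoImplicit false

namespace Pool.Agent.TH111.PN

open Finset Polynomial Pool.Agent.TH91.RF Pool.Agent.TH142.PN

section

variable {ι : Type} {N : ℕ} (c : Cx ι N)

theorem down_bot {A : Submodule ℝ (PM ι N)} (hA : A = ⊥) : c.Down A A := by
  subst hA
  refine ⟨le_rfl, fun z hz => ?_⟩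
  rw [(Submodule.mem_bot ℝ).1 hz]
  refine ⟨fun y _ => ?_, ?_, ?_⟩
  · simp
  · simp
  · simp

/-- a chain of submodules with one-dimensional steps -/
def HC (A : Submodule ℝ (PM ι N)) : Prop :=
  ∃ (n : ℕ) (Ws : ℕ → Submodule ℝ (PM ι N)) (ys : ℕ → PM ι N), Ws 0 = A ∧ Ws n = ⊥ ∧
    (∀ i, Ws i ≤ c.z) ∧ (∀ i, c.Down (Ws i) (Ws (i + 1))) ∧
    ∀ i < n, ys i ∈ Ws i ∧ (∃ h : ys i ∈ c.z, c.ex (ys i) h ∈ c.Γ) ∧
      ∀ z ∈ Ws i, ∃ t : ℝ, ∃ z' ∈ Ws (i + 1), z = t • ys i + z'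

theorem HC_bot : HC c ⊥ :=
  ⟨0, fun _ => ⊥, fun _ => 0, rfl, rfl, fun _ => bot_le, fun _ => down_bot c rfl,
    fun i hi => absurd hi (Nat.not_lt_zero i)⟩

theorem HC_cons {A B : Submodule ℝ (PM ι N)} (hB : HC c B) (hA : A ≤ c.z) (h : c.Down A B)
    {y : PM ι N} (hy : y ∈ A) (hyz : y ∈ c.z) (hyΓ : c.ex y hyz ∈ c.Γ)
    (hsp : ∀ z ∈ A, ∃ t : ℝ, ∃ z' ∈ B, z = t • y + z') : HC c A := by
  obtain ⟨n, Ws, ys, h0, h1, h2, h3, h4⟩ := hB
  refine ⟨n + 1, fun i => Nat.casesOn i A (fun j => Ws j), fun i => Nat.casesOn i y (fun j => ys j),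
    rfl, h1, ?_, ?_, ?_⟩
  · intro i
    rcases i with _ | i
    · exact hA
    · exact h2 i
  · intro i
    rcases i with _ | i
    · change c.Down A (Ws 0)
      rw [h0]
      exact h
    · exact h3 i
  · intro i hi
    rcases i with _ | i
    · refine ⟨hy, ⟨hyz, hyΓ⟩, ?_⟩
      change ∀ z ∈ A, ∃ t : ℝ, ∃ z' ∈ Ws 0, z = t • y + z'
      rw [h0]
      exact hsp
    · exact h4 i (by omega)

theorem HC_step [Finite ι] (k : ℕ)
    (hstep : zs c.S c.p k ≤ Submodule.span ℝ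
      {y | y ∈ zs c.S c.p k ∧ ∃ h : y ∈ c.z, c.ex y h ∈ c.Γ} ⊔ zs c.S c.p (k + 1))
    (h : HC c (zs c.S c.p (k + 1))) : HC c (zs c.S c.p k) := by
  have hfin := c.fin_zz
  have hfd : ∀ A : Submodule ℝ (PM ι N), A ≤ zs c.S c.p k → FiniteDimensional ℝ A := by
    intro A hA
    exact Submodule.finiteDimensional_of_le (hA.trans (zs_le_z c k))
  have key : ∀ d : ℕ, ∀ A : Submodule ℝ (PM ι N), HC c A → zs c.S c.p (k + 1) ≤ A →
      A ≤ zs c.S c.p k → Module.finrank ℝ (zs c.S c.p k) ≤ Module.finrank ℝ A + d →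
        HC c (zs c.S c.p k) := by
    intro d
    induction d with
    | zero =>
      intro A hA h1 h2 h3
      have := hfd _ le_rfl
      have h4 : A = zs c.S c.p k := Submodule.eq_of_le_of_finrank_le h2 h3
      rw [← h4]
      exact hA
    | succ d ih =>
      intro A hA h1 h2 h3
      by_cases hAk : A = zs c.S c.p k
      · rw [← hAk]
        exact hA
      obtain ⟨y, ⟨hyk, hyz, hyΓ⟩, hyA⟩ : ∃ y, (y ∈ zs c.S c.p k ∧ ∃ h : y ∈ c.z, c.ex y h ∈ c.Γ) ∧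
          y ∉ A := by
        by_contra hcon
        push Not at hcon
        apply hAk
        refine le_antisymm h2 (hstep.trans (sup_le (Submodule.span_le.2 ?_) h1))
        intro y hy
        exact hcon y hy
      have hA' : Submodule.span ℝ {y} ⊔ A ≤ zs c.S c.p k :=
        sup_le ((Submodule.span_singleton_le_iff_mem _ _).2 hyk) h2
      have hmem : y ∈ Submodule.span ℝ {y} ⊔ A :=
        Submodule.mem_sup_left (Submodule.mem_span_singleton_self y)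
      refine ih (Submodule.span ℝ {y} ⊔ A) ?_ (h1.trans le_sup_right) hA' ?_
      · refine HC_cons c hA (hA'.trans (zs_le_z c k))
          (((c.zs_down k).mono h1 h2).mono' hA' le_sup_right) hmem hyz hyΓ ?_
        intro z hz
        obtain ⟨u, hu, v, hv, rfl⟩ := Submodule.mem_sup.1 hz
        obtain ⟨t, rfl⟩ := Submodule.mem_span_singleton.1 hu
        exact ⟨t, v, hv, rfl⟩
      · have hlt : A < Submodule.span ℝ {y} ⊔ A := by
          refine lt_of_le_of_ne le_sup_right fun h5 => hyA ?_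
          rw [h5]
          exact hmem
        have := hfd _ hA'
        have h6 := Submodule.finrank_lt_finrank_of_lt hlt
        omega
  exact key _ _ h le_rfl (c.zs_down k).1 (Nat.le_add_left _ _)

theorem HC_all [Finite ι]
    (hstep : ∀ k, zs c.S c.p k ≤ Submodule.span ℝ
      {y | y ∈ zs c.S c.p k ∧ ∃ h : y ∈ c.z, c.ex y h ∈ c.Γ} ⊔ zs c.S c.p (k + 1)) :
    HC c c.z := by
  have key : ∀ m k, c.Θ * N ≤ k + m → HC c (zs c.S c.p k) := by
    intro m
    induction m with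
    | zero =>
      intro k hk
      have : zs c.S c.p k = ⊥ := by
        rw [eq_bot_iff]
        intro x hx
        exact (Submodule.mem_bot ℝ).2 (zs_eq_bot c hk hx)
      rw [this]
      exact HC_bot c
    | succ m ih =>
      intro k hk
      exact HC_step c k (hstep k) (ih (k + 1) (by omega))
  exact key (c.Θ * N) 0 (by omega)

/-- the subgroup of the exponentials of a submodule -/
def GA (A : Submodule ℝ (PM ι N)) (hA : A ≤ c.z) (h : c.Down A A) : Subgroup c.G where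
  carrier := {u | ∃ z, ∃ hz : z ∈ A, u = c.ex z (hA hz)}
  mul_mem' := by
    rintro u v ⟨x, hx, rfl⟩ ⟨y, hy, rfl⟩
    obtain ⟨j, hj, h1⟩ := ex_mul c h hA (hA hx) hy
    exact ⟨x + y + j, A.add_mem (A.add_mem hx hy) hj, h1⟩
  one_mem' := ⟨0, A.zero_mem, c.ex_zero.symm⟩
  inv_mem' := by
    rintro u ⟨x, hx, rfl⟩
    exact ⟨-x, A.neg_mem hx, c.ex_inv _ _⟩

theorem mem_GA {A : Submodule ℝ (PM ι N)} {hA : A ≤ c.z} {h : c.Down A A} {u : c.G} :
    u ∈ GA c A hA h ↔ ∃ z, ∃ hz : z ∈ A, u = c.ex z (hA hz) := Iff.rfl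

theorem sG_symm_ex {z : PM ι N} (hz : z ∈ c.z) : c.sG.symm (c.ex z hz) =
    c.ex (IsNilpotent.exp (-cst ι c.S.D) * z * IsNilpotent.exp (cst ι c.S.D)) (c.conj_z' hz) := by
  apply c.ext_val
  rw [Cx.ex_val, c.exp_conj_val' hz]
  rfl

/-- inverse conjugations in the group -/
theorem ex_conj' {A B C : Submodule ℝ (PM ι N)} (h : c.Down A B) (h' : c.Down B C) (hA : A ≤ c.z)
    {z : PM ι N} (hz : z ∈ A) :
    ∃ j, ∃ hj : j ∈ B, c.sG.symm (c.ex z (hA hz)) * (c.ex z (hA hz))⁻¹ =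
      c.ex j (hA (h.1 hj)) := by
  have hB : B ≤ c.z := h.1.trans hA
  obtain ⟨j, hj, h1⟩ := Cx.conj_add h h' hA (-1) hz
  have hb : (-1 : ℝ) • (cst ι c.S.D * z - z * cst ι c.S.D) + j ∈ B :=
    B.add_mem (B.smul_mem _ (h.2 z hz).2.2) (h'.1 hj)
  obtain ⟨j', hj', h2⟩ := Cx.add_neg h' hB (hA hz) hb
  refine ⟨(-1 : ℝ) • (cst ι c.S.D * z - z * cst ι c.S.D) + j + j', B.add_mem hb (h'.1 hj'),
    c.ext_val ?_⟩
  rw [sG_symm_ex]
  change IsNilpotent.exp (IsNilpotent.exp (-cst ι c.S.D) * z * IsNilpotent.exp (cst ι c.S.D)) *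
    IsNilpotent.exp (-z) = IsNilpotent.exp ((-1 : ℝ) • (cst ι c.S.D * z - z * cst ι c.S.D) + j + j')
  have h3 : IsNilpotent.exp (-cst ι c.S.D) * z * IsNilpotent.exp (cst ι c.S.D) =
      z + (-1 : ℝ) • (cst ι c.S.D * z - z * cst ι c.S.D) + j := by
    rw [← h1, _root_.neg_smul, one_smul, neg_neg]
  rw [h3, add_assoc z, h2]

/-- inverse translations in the group -/
theorem ex_sh' {A B C : Submodule ℝ (PM ι N)} (h : c.Down A B) (h' : c.Down B C) (hA : A ≤ c.z)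
    (K : ℤ) {z : PM ι N} (hz : z ∈ A) :
    ∃ j, ∃ hj : j ∈ B, (c.shG K).symm (c.ex z (hA hz)) * (c.ex z (hA hz))⁻¹ =
      c.ex j (hA (h.1 hj)) := by
  obtain ⟨j, hj, h1⟩ := ex_sh c h h' hA (-K) hz
  refine ⟨((-K : ℤ) : ℝ) • dd ι N z + j, B.add_mem (B.smul_mem _ (h.2 z hz).2.1) (h'.1 hj), ?_⟩
  rw [← h1]
  rfl

end

/-- the refined central series -/
theorem exists_affSys {ι : Type} [Finite ι] {N : ℕ} (c : Cx ι N)
    (hstep : ∀ k, zs c.S c.p k ≤ Submodule.span ℝ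
      {y | y ∈ zs c.S c.p k ∧ ∃ h : y ∈ c.z, c.ex y h ∈ c.Γ} ⊔ zs c.S c.p (k + 1))
    (K : ℤ) (u : Bool → c.G) :
    ∃ (n : ℕ) (S : AffSys c.G c.Γ Bool n), S.u = u ∧
      S.θ = fun b => if b then c.shG K else c.sG := by
  classical
  obtain ⟨n, Ws, ys, h0, hn, hz, hD, hy⟩ := HC_all c hstep
  have hDs : ∀ i, c.Down (Ws i) (Ws i) := fun i => (hD i).self
  refine ⟨n, {
    Gs := fun i => GA c (Ws i) (hz i) (hDs i)
    zero := ?_
    last := ?_
    le := ?_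
    comm := ?_
    e := fun i t => if h : ys i ∈ c.z then c.ex (t • ys i) (c.z.smul_mem t h) else 1
    cont := ?_
    add := ?_
    mem := ?_
    gen := ?_
    e_one := ?_
    u := u
    θ := fun b => if b then c.shG K else c.sG
    θcont := ?_
    θΓ := ?_
    θGs := ?_
    θGs' := ?_ }, rfl, rfl⟩
  · rw [eq_top_iff]
    intro v _
    obtain ⟨z, hzz, rfl⟩ := c.exists_ex v
    rw [mem_GA]
    have : z ∈ Ws 0 := by rw [h0]; exact hzz
    exact ⟨z, this, rfl⟩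
  · rw [eq_bot_iff]
    rintro v ⟨z, hzz, rfl⟩
    have h1 : z = 0 := by
      rw [hn] at hzz
      exact (Submodule.mem_bot ℝ).1 hzz
    rw [Subgroup.mem_bot, c.ex_congr _ h1, c.ex_zero]
  · rintro i v ⟨z, hzz, rfl⟩
    exact ⟨z, (hD i).1 hzz, rfl⟩
  · rintro i _ g k ⟨z, hzz, rfl⟩
    obtain ⟨y, hyz, rfl⟩ := c.exists_ex g
    obtain ⟨j, hj, h1⟩ := ex_comm c (hD i) (hDs (i + 1)) (hz i) hyz hzz
    exact ⟨_, (Ws (i + 1)).add_mem (((hD i).2 z hzz).1 y hyz) hj, h1⟩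
  · intro i hi
    have hyi : ys i ∈ c.z := hz i (hy i hi).1
    simp only [dif_pos hyi]
    refine c.continuous_ex _ fun m k => ?_
    simp only [Cx.ev_smul]
    fun_prop
  · intro i hi s t
    have hyi : ys i ∈ c.z := hz i (hy i hi).1
    simp only [dif_pos hyi]
    apply c.ext_val
    change IsNilpotent.exp ((s + t) • ys i) =
      IsNilpotent.exp (s • ys i) * IsNilpotent.exp (t • ys i)
    rw [add_smul, IsNilpotent.exp_add_of_commute]
    · exact ((Commute.refl (ys i)).smul_left s).smul_right t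
    · exact c.nil (c.z.smul_mem s hyi)
    · exact c.nil (c.z.smul_mem t hyi)
  · intro i hi t
    have hyi : ys i ∈ c.z := hz i (hy i hi).1
    simp only [dif_pos hyi]
    exact ⟨t • ys i, (Ws i).smul_mem t (hy i hi).1, rfl⟩
  · rintro i hi k ⟨z, hzz, rfl⟩
    have hyi : ys i ∈ c.z := hz i (hy i hi).1
    obtain ⟨t, z', hz', h1⟩ := (hy i hi).2.2 z hzz
    obtain ⟨j, hj, h2⟩ := ex_coset c (hDs (i + 1)) (hz (i + 1)) (c.z.smul_mem t hyi) (hz i hzz) (by
      rw [h1, add_sub_cancel_left]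
      exact hz')
    refine ⟨t, c.ex j (hz (i + 1) hj), ⟨j, hj, rfl⟩, ?_⟩
    simp only [dif_pos hyi]
    exact h2
  · intro i hi
    have hyi : ys i ∈ c.z := hz i (hy i hi).1
    simp only [dif_pos hyi]
    obtain ⟨h1, h2⟩ := (hy i hi).2.1
    rw [c.ex_congr _ (one_smul ℝ (ys i))]
    exact h2
  · intro b
    cases b
    · exact c.sG_continuous
    · exact c.shG_continuous K
  · intro b γ hγ
    cases b
    · exact c.sG_Γ hγ
    · exact c.shG_Γ K hγ
  · rintro b i _ k ⟨z, hzz, rfl⟩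
    cases b
    · obtain ⟨j, hj, h1⟩ := ex_conj c (hD i) (hDs (i + 1)) (hz i) hzz
      exact ⟨_, (Ws (i + 1)).add_mem ((hD i).2 z hzz).2.2 hj, h1⟩
    · obtain ⟨j, hj, h1⟩ := ex_sh c (hD i) (hDs (i + 1)) (hz i) K hzz
      exact ⟨_, (Ws (i + 1)).add_mem ((Ws (i + 1)).smul_mem _ ((hD i).2 z hzz).2.1) hj, h1⟩
  · rintro b i _ k ⟨z, hzz, rfl⟩
    cases b
    · obtain ⟨j, hj, h1⟩ := ex_conj' c (hD i) (hDs (i + 1)) (hz i) hzz
      exact ⟨j, hj, h1⟩
    · obtain ⟨j, hj, h1⟩ := ex_sh' c (hD i) (hDs (i + 1)) (hz i) K hzz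
      exact ⟨j, hj, h1⟩

end Pool.Agent.TH111.PN
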